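import Pool.Agent.helper35.DR.SpecZ

/-!
# Project dr (MP_baa4d7_al), module FIS
-/

set_option autoImplicit false

namespace Pool.Agent.DR

open Pool.Agent.helper58.DC Pool.Agent.DI

theorem FIS : FIS_stmt := by
  intro p M Q Q' _ _ e h G E A _ _ _ _ _ X hA hO χ hχ hD d U
  obtain ⟨i⟩ := hA
  exact h G E A X ⟨i.trans e.symm⟩ hO χ hχ hD d U

end Pool.Agent.DR
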