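import Pool.Agent.helper35.DR.SpecZ

/-!
# Project dr (MP_baa4d7_al), module FTR
-/

set_option autoImplicit false

namespace Pool.Agent.DR

open Pool.Agent.helper58.DC Pool.Agent.DI

theorem FTR_kC {G E A E' A' : Type} [Group G] [Group E] [Group A] [Group E'] [Group A']
    (X : Extension G E A) (X' : Extension G E' A') (hA : Subsingleton A) (hA' : Subsingleton A')
    (p : ℕ) (M : Ideal (integralClosure ℤ ℂ)) (χ : G → ℂ) (d : ℤ) (U : Subgroup A)
    (U' : Subgroup A') (C : Finset (Subgroup G)) :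
    kC X p M χ d U C = kC X' p M χ d U' C := by
  unfold kC
  refine congrArg (fun P : (G → ℂ) → Prop => Nat.card {ψ : G → ℂ // P ψ}) ?_
  funext ψ
  have h1 : (X.stab C ψ).map X.proj = U := Subsingleton.elim _ _
  have h2 : (X'.stab C ψ).map X'.proj = U' := Subsingleton.elim _ _
  simp only [h1, h2]

theorem FTR : FTR_stmt := by
  intro p M hO A₀ _ hS G E A _ _ _ _ _ X hA hOp χ hχ hD d U
  obtain ⟨i⟩ := hA
  have hA1 : Subsingleton A := i.toEquiv.subsingleton
  have h1 := hO G hOp χ hχ hD d
  rw [← h1]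
  unfold altSum
  refine finsum_congr fun c => ?_
  rw [FTR_kC X (trivE G) hA1 inferInstance p M χ d U ⊤ c.out.1]

end Pool.Agent.DR
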